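import Pool.Agent.Helper35.KL.Dp.Defs

/-!
# Direct products of Coxeter groups: the core properties
-/

namespace Pool.Agent.Helper35.KL

open scoped TensorProduct

section prod

variable {B₁ B₂ B : Type} {M₁ : CoxeterMatrix B₁} {M₂ : CoxeterMatrix B₂}
variable {M : CoxeterMatrix B} {f₁ : M₁.Group →* M.Group} {j₁ : B₁ → B}
variable {f₂ : M₂.Group →* M.Group} {j₂ : B₂ → B} (hP : IsProd f₁ j₁ f₂ j₂) {L : M.Group → ℤ}
variable {H : Type} [Ring H] [Algebra LP H] (D : KLD M L H)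

include hP in
theorem dpInj {x x' : M₁.Group} {y y' : M₂.Group} (h : f₁ x * f₂ y = f₁ x' * f₂ y') :
    x = x' ∧ y = y' := by
  have h1 : f₁ (x'⁻¹ * x) * f₂ (y * y'⁻¹) = 1 := by
    rw [map_mul, map_mul, map_inv, map_inv]
    calc (f₁ x')⁻¹ * f₁ x * (f₂ y * (f₂ y')⁻¹) = (f₁ x')⁻¹ * (f₁ x * f₂ y) * (f₂ y')⁻¹ := by group
      _ = (f₁ x')⁻¹ * (f₁ x' * f₂ y') * (f₂ y')⁻¹ := by rw [h]
      _ = 1 := by group
  have h2 := hP.len (x'⁻¹ * x) (y * y'⁻¹)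
  rw [h1, len_one] at h2
  have h3 : len M₁ (x'⁻¹ * x) = 0 := by omega
  have h4 : len M₂ (y * y'⁻¹) = 0 := by omega
  rw [len_eq_zero] at h3 h4
  exact ⟨(inv_mul_eq_one.1 h3).symm, mul_inv_eq_one.1 h4⟩

include hP in
theorem dpMul (x x' : M₁.Group) (y y' : M₂.Group) :
    f₁ x * f₂ y * (f₁ x' * f₂ y') = f₁ (x * x') * f₂ (y * y') := by
  rw [map_mul, map_mul, mul_assoc, ← mul_assoc (f₂ y), ← hP.comm x' y]
  simp only [mul_assoc]

include hP in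
theorem dpInv (x : M₁.Group) (y : M₂.Group) : (f₁ x * f₂ y)⁻¹ = f₁ x⁻¹ * f₂ y⁻¹ := by
  rw [mul_inv_rev, map_inv, map_inv, ← map_inv, ← map_inv, hP.comm]

theorem dpOne : f₁ 1 * f₂ 1 = 1 := by rw [map_one, map_one, mul_one]

include hP in
theorem dpT (x : M₁.Group) (y : M₂.Group) : D.T (f₁ x * f₂ y) = D.T (f₁ x) * D.T (f₂ y) :=
  D.T_mul _ _ (by rw [hP.len, hP.p₁.len, hP.p₂.len])

include hP in
theorem dpT' (x : M₁.Group) (y : M₂.Group) : D.T (f₁ x * f₂ y) = D.T (f₂ y) * D.T (f₁ x) := by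
  rw [hP.comm]
  refine D.T_mul _ _ ?_
  rw [← hP.comm, hP.len, hP.p₁.len, hP.p₂.len, add_comm]

include hP in
/-- The two subalgebras commute. -/
theorem dpComm {a b : H} (ha : a ∈ pS f₁ D) (hb : b ∈ pS f₂ D) : a * b = b * a := by
  refine Submodule.span_induction (p := fun a _ => a * b = b * a) ?_ ?_ ?_ ?_ ha
  · rintro _ ⟨x, rfl⟩
    refine Submodule.span_induction
      (p := fun b _ => D.T (f₁ x) * b = b * D.T (f₁ x)) ?_ ?_ ?_ ?_ hb
    · rintro _ ⟨y, rfl⟩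
      simp only
      rw [← dpT hP D, ← dpT' hP D]
    · rw [mul_zero, zero_mul]
    · intro u v _ _ hu hv
      rw [mul_add, add_mul, hu, hv]
    · intro c v _ hv
      rw [mul_smul_comm, smul_mul_assoc, hv]
  · rw [mul_zero, zero_mul]
  · intro u v _ _ hu hv
    rw [mul_add, add_mul, hu, hv]
  · intro c v _ hv
    rw [mul_smul_comm, smul_mul_assoc, hv]

open scoped Classical in
include hP in
/-- The coordinates in the basis `T` are multiplicative. -/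
theorem dpRepr_T {a b : H} (ha : a ∈ pS f₁ D) (hb : b ∈ pS f₂ D) (x : M₁.Group)
    (y : M₂.Group) :
    D.T.repr (a * b) (f₁ x * f₂ y) = D.T.repr a (f₁ x) * D.T.repr b (f₂ y) := by
  refine Submodule.span_induction
    (p := fun a _ => D.T.repr (a * b) (f₁ x * f₂ y) = D.T.repr a (f₁ x) * D.T.repr b (f₂ y))
    ?_ ?_ ?_ ?_ ha
  · rintro _ ⟨u, rfl⟩
    refine Submodule.span_induction
      (p := fun b _ => D.T.repr (D.T (f₁ u) * b) (f₁ x * f₂ y) =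
        D.T.repr (D.T (f₁ u)) (f₁ x) * D.T.repr b (f₂ y)) ?_ ?_ ?_ ?_ hb
    · rintro _ ⟨v, rfl⟩
      simp only
      rw [← dpT hP D, Module.Basis.repr_self, Module.Basis.repr_self, Module.Basis.repr_self,
        Finsupp.single_apply, Finsupp.single_apply, Finsupp.single_apply]
      by_cases h1 : u = x
      · by_cases h2 : v = y
        · rw [if_pos (by rw [h1, h2]), if_pos (by rw [h1]), if_pos (by rw [h2]), one_mul]
        · rw [if_neg (fun h => h2 (dpInj hP h).2), if_neg (c := f₂ v = f₂ y)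
            (fun h => h2 (hP.p₂.inj h)), mul_zero]
      · rw [if_neg (fun h => h1 (dpInj hP h).1), if_neg (c := f₁ u = f₁ x)
          (fun h => h1 (hP.p₁.inj h)), zero_mul]
    · rw [mul_zero, map_zero, Finsupp.zero_apply, Finsupp.zero_apply, mul_zero]
    · intro p q _ _ hp hq
      rw [mul_add, map_add, map_add, Finsupp.add_apply, Finsupp.add_apply, hp, hq, mul_add]
    · intro c p _ hp
      rw [mul_smul_comm, map_smul, map_smul, Finsupp.smul_apply, Finsupp.smul_apply, hp,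
        smul_eq_mul, smul_eq_mul]
      ring
  · rw [zero_mul, map_zero, Finsupp.zero_apply, Finsupp.zero_apply, zero_mul]
  · intro p q _ _ hp hq
    rw [add_mul, map_add, map_add, Finsupp.add_apply, Finsupp.add_apply, hp, hq, add_mul]
  · intro c p _ hp
    rw [smul_mul_assoc, map_smul, map_smul, Finsupp.smul_apply, Finsupp.smul_apply, hp,
      smul_eq_mul, smul_eq_mul]
    ring

include hP in
theorem dpC (x : M₁.Group) (y : M₂.Group) : D.C (f₁ x * f₂ y) = D.C (f₁ x) * D.C (f₂ y) := by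
  symm
  have hc₁ : D.C (f₁ x) ∈ pS f₁ D := by
    rw [← coe_Cp hP.p₁]
    exact ((Dp hP.p₁ D).C x).2
  have hc₂ : D.C (f₂ y) ∈ pS f₂ D := by
    rw [← coe_Cp hP.p₂]
    exact ((Dp hP.p₂ D).C y).2
  refine D.bar_unique' ?_ (D.bar_C _) ?_
  · rw [map_mul, D.bar_C, D.bar_C]
  · have h1 : D.C (f₁ x) * D.C (f₂ y) - D.C (f₁ x * f₂ y) =
        (D.C (f₁ x) - D.T (f₁ x)) * D.T (f₂ y) + D.C (f₁ x) * (D.C (f₂ y) - D.T (f₂ y)) -
          (D.C (f₁ x * f₂ y) - D.T (f₁ x * f₂ y)) := by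
      rw [dpT hP D, sub_mul, mul_sub]
      abel
    rw [h1]
    refine AddSubgroup.sub_mem _ (AddSubgroup.add_mem _ ?_ ?_) (D.C_sub_T_neg _)
    · intro w
      obtain ⟨u, v, rfl⟩ := hP.surj w
      rw [dpRepr_T hP D (Submodule.sub_mem _ hc₁ (T_par_mem D x)) (T_par_mem D y)]
      exact (D.C_sub_T_neg (f₁ x) _).mul_of_eq (basis_mem_Lat D.T _ _) (by norm_num)
    · intro w
      obtain ⟨u, v, rfl⟩ := hP.surj w
      rw [dpRepr_T hP D hc₁ (Submodule.sub_mem _ hc₂ (T_par_mem D y))]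
      have h2 : D.C (f₁ x) ∈ Lat D.T 0 := by
        have h3 : D.C (f₁ x) = D.T (f₁ x) + (D.C (f₁ x) - D.T (f₁ x)) := by abel
        rw [h3]
        exact AddSubgroup.add_mem _ (basis_mem_Lat _ _)
          (Lat_mono _ (by norm_num) (D.C_sub_T_neg _))
      exact (h2 _).mul_of_eq (D.C_sub_T_neg (f₂ y) _) (by norm_num)

include hP in
/-- The coordinates in the basis `C` are multiplicative. -/
theorem dpRepr_C (s : pA hP.p₁ D) (t : pA hP.p₂ D) (x : M₁.Group) (y : M₂.Group) :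
    D.C.repr ((s : H) * (t : H)) (f₁ x * f₂ y) =
      (Dp hP.p₁ D).C.repr s x * (Dp hP.p₂ D).C.repr t y := by
  classical
  have hs := (Dp hP.p₁ D).C.mem_span s
  have ht := (Dp hP.p₂ D).C.mem_span t
  refine Submodule.span_induction
    (p := fun (s : pA hP.p₁ D) _ => D.C.repr ((s : H) * (t : H)) (f₁ x * f₂ y) =
      (Dp hP.p₁ D).C.repr s x * (Dp hP.p₂ D).C.repr t y) ?_ ?_ ?_ ?_ hs
  · rintro _ ⟨u, rfl⟩
    refine Submodule.span_induction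
      (p := fun (t : pA hP.p₂ D) _ =>
        D.C.repr (((Dp hP.p₁ D).C u : H) * (t : H)) (f₁ x * f₂ y) =
        (Dp hP.p₁ D).C.repr ((Dp hP.p₁ D).C u) x * (Dp hP.p₂ D).C.repr t y) ?_ ?_ ?_ ?_ ht
    · rintro _ ⟨v, rfl⟩
      rw [coe_Cp, coe_Cp, ← dpC hP D, Module.Basis.repr_self, Module.Basis.repr_self,
        Module.Basis.repr_self,
        Finsupp.single_apply, Finsupp.single_apply, Finsupp.single_apply]
      by_cases h1 : u = x
      · by_cases h2 : v = y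
        · rw [if_pos (by rw [h1, h2]), if_pos h1, if_pos h2, one_mul]
        · rw [if_neg (fun h => h2 (dpInj hP h).2), if_neg h2, mul_zero]
      · rw [if_neg (fun h => h1 (dpInj hP h).1), if_neg h1, zero_mul]
    · rw [Subalgebra.coe_zero, mul_zero, map_zero, map_zero, Finsupp.zero_apply,
        Finsupp.zero_apply, mul_zero]
    · intro p q _ _ hp hq
      rw [Subalgebra.coe_add, mul_add, map_add, map_add, Finsupp.add_apply, Finsupp.add_apply,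
        hp, hq, mul_add]
    · intro c p _ hp
      rw [Subalgebra.coe_smul, mul_smul_comm, map_smul, map_smul, Finsupp.smul_apply,
        Finsupp.smul_apply, hp, smul_eq_mul, smul_eq_mul]
      ring
  · rw [Subalgebra.coe_zero, zero_mul, map_zero, map_zero, Finsupp.zero_apply,
      Finsupp.zero_apply, zero_mul]
  · intro p q _ _ hp hq
    rw [Subalgebra.coe_add, add_mul, map_add, map_add, Finsupp.add_apply, Finsupp.add_apply,
      hp, hq, add_mul]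
  · intro c p _ hp
    rw [Subalgebra.coe_smul, smul_mul_assoc, map_smul, map_smul, Finsupp.smul_apply,
      Finsupp.smul_apply, hp, smul_eq_mul, smul_eq_mul]
    ring

include hP in
theorem dpCC (x₁ y₁ : M₁.Group) (x₂ y₂ : M₂.Group) :
    D.C (f₁ x₁ * f₂ x₂) * D.C (f₁ y₁ * f₂ y₂) =
      (((Dp hP.p₁ D).C x₁ * (Dp hP.p₁ D).C y₁ : pA hP.p₁ D) : H) *
        (((Dp hP.p₂ D).C x₂ * (Dp hP.p₂ D).C y₂ : pA hP.p₂ D) : H) := by
  rw [dpC hP D, dpC hP D, Subalgebra.coe_mul, Subalgebra.coe_mul, coe_Cp, coe_Cp, coe_Cp, coe_Cp]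
  have hc₁ : D.C (f₁ y₁) ∈ pS f₁ D := by
    rw [← coe_Cp hP.p₁]
    exact ((Dp hP.p₁ D).C y₁).2
  have hc₂ : D.C (f₂ x₂) ∈ pS f₂ D := by
    rw [← coe_Cp hP.p₂]
    exact ((Dp hP.p₂ D).C x₂).2
  calc D.C (f₁ x₁) * D.C (f₂ x₂) * (D.C (f₁ y₁) * D.C (f₂ y₂))
      = D.C (f₁ x₁) * (D.C (f₂ x₂) * D.C (f₁ y₁)) * D.C (f₂ y₂) := by simp only [mul_assoc]
    _ = D.C (f₁ x₁) * (D.C (f₁ y₁) * D.C (f₂ x₂)) * D.C (f₂ y₂) := by
        rw [dpComm hP D hc₁ hc₂]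
    _ = _ := by simp only [mul_assoc]

include hP in
theorem dpH (x₁ y₁ z₁ : M₁.Group) (x₂ y₂ z₂ : M₂.Group) :
    D.h (f₁ x₁ * f₂ x₂) (f₁ y₁ * f₂ y₂) (f₁ z₁ * f₂ z₂) =
      (Dp hP.p₁ D).h x₁ y₁ z₁ * (Dp hP.p₂ D).h x₂ y₂ z₂ := by
  rw [KLD.h, dpCC hP D, dpRepr_C hP D]
  rfl

include hP in
theorem dpP (x₁ y₁ : M₁.Group) (x₂ y₂ : M₂.Group) :
    D.p (f₁ x₁ * f₂ x₂) (f₁ y₁ * f₂ y₂) = (Dp hP.p₁ D).p x₁ y₁ * (Dp hP.p₂ D).p x₂ y₂ := by
  have hc₁ : D.C (f₁ y₁) ∈ pS f₁ D := by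
    rw [← coe_Cp hP.p₁]
    exact ((Dp hP.p₁ D).C y₁).2
  have hc₂ : D.C (f₂ y₂) ∈ pS f₂ D := by
    rw [← coe_Cp hP.p₂]
    exact ((Dp hP.p₂ D).C y₂).2
  rw [KLD.p, dpC hP D, dpRepr_T hP D hc₁ hc₂, p_par, p_par]
  rfl

theorem dpP1 (z₁ : M₁.Group) (z₂ : M₂.Group) :
    D.p 1 (f₁ z₁ * f₂ z₂) = (Dp hP.p₁ D).p 1 z₁ * (Dp hP.p₂ D).p 1 z₂ := by
  rw [← dpP hP D, dpOne]

section core

variable (h₁ : (Dp hP.p₁ D).Core) (h₂ : (Dp hP.p₂ D).Core)

include h₁ h₂ in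
theorem dpA (z₁ : M₁.Group) (z₂ : M₂.Group) :
    D.a (f₁ z₁ * f₂ z₂) = (Dp hP.p₁ D).a z₁ + (Dp hP.p₂ D).a z₂ := by
  refine KLD.a_eq ?_ ?_
  · intro x y
    obtain ⟨x₁, x₂, rfl⟩ := hP.surj x
    obtain ⟨y₁, y₂, rfl⟩ := hP.surj y
    rw [dpH hP D]
    exact (KLD.h_dle h₁.bdd _ _ _).mul_of_eq (KLD.h_dle h₂.bdd _ _ _) (by push_cast; rfl)
  · obtain ⟨x₁, y₁, e₁⟩ := KLD.a_attained h₁.bdd z₁
    obtain ⟨x₂, y₂, e₂⟩ := KLD.a_attained h₂.bdd z₂
    refine ⟨f₁ x₁ * f₂ x₂, f₁ y₁ * f₂ y₂, ?_⟩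
    rw [dpH hP D, Nat.cast_add, cf_mul_lead (KLD.h_dle h₁.bdd _ _ _) (KLD.h_dle h₂.bdd _ _ _)]
    exact mul_ne_zero e₁ e₂

include h₁ h₂ in
theorem dpG (x₁ y₁ z₁ : M₁.Group) (x₂ y₂ z₂ : M₂.Group) :
    D.g (f₁ x₁ * f₂ x₂) (f₁ y₁ * f₂ y₂) (f₁ z₁ * f₂ z₂) =
      (Dp hP.p₁ D).g x₁ y₁ z₁ * (Dp hP.p₂ D).g x₂ y₂ z₂ := by
  rw [KLD.g, dpInv hP, dpH hP D, dpA hP D h₁ h₂, Nat.cast_add,
    cf_mul_lead (KLD.h_dle h₁.bdd _ _ _) (KLD.h_dle h₂.bdd _ _ _)]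
  rfl

include h₁ h₂ in
theorem dpNn (z₁ : M₁.Group) (z₂ : M₂.Group) :
    D.nn (f₁ z₁ * f₂ z₂) = (Dp hP.p₁ D).nn z₁ * (Dp hP.p₂ D).nn z₂ := by
  rw [KLD.nn, dpP1 hP D, dpA hP D h₁ h₂, Nat.cast_add, neg_add,
    cf_mul_lead (h₁.P1' _) (h₂.P1' _)]
  rfl

include hP in
theorem dpLeLR {y w : M.Group} (h : D.leLR y w) :
    ∀ (y₁ w₁ : M₁.Group) (y₂ w₂ : M₂.Group), y = f₁ y₁ * f₂ y₂ → w = f₁ w₁ * f₂ w₂ →
      (Dp hP.p₁ D).leLR y₁ w₁ ∧ (Dp hP.p₂ D).leLR y₂ w₂ := by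
  classical
  induction h using Relation.ReflTransGen.head_induction_on with
  | refl =>
    intro y₁ w₁ y₂ w₂ h1 h2
    obtain ⟨rfl, rfl⟩ := dpInj hP (h1.symm.trans h2)
    exact ⟨Relation.ReflTransGen.refl, Relation.ReflTransGen.refl⟩
  | @head u v h3 _ ih =>
    intro y₁ w₁ y₂ w₂ h1 h2
    obtain ⟨v₁, v₂, rfl⟩ := hP.surj v
    obtain ⟨i1, i2⟩ := ih v₁ w₁ v₂ w₂ rfl h2
    subst h1
    rcases h3 with ⟨b, hb⟩ | ⟨b, hb⟩
    · rcases hP.cov b with ⟨a, rfl⟩ | ⟨a, rfl⟩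
      · have h4 : sm M (j₁ a) = f₁ (sm M₁ a) * f₂ 1 := by rw [hP.p₁.sm, map_one, mul_one]
        rw [h4] at hb
        change D.h _ _ _ ≠ 0 at hb
        rw [dpH hP D, KLD.h_one] at hb
        have h5 := left_ne_zero_of_mul hb
        have h6 := right_ne_zero_of_mul hb
        have h7 : v₂ = y₂ := by
          by_contra hne
          rw [if_neg hne] at h6
          exact h6 rfl
        subst h7
        exact ⟨(Dp hP.p₁ D).leLR_trans (Relation.ReflTransGen.single (Or.inl ⟨a, h5⟩)) i1, i2⟩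
      · have h4 : sm M (j₂ a) = f₁ 1 * f₂ (sm M₂ a) := by rw [hP.p₂.sm, map_one, one_mul]
        rw [h4] at hb
        change D.h _ _ _ ≠ 0 at hb
        rw [dpH hP D, KLD.h_one] at hb
        have h5 := left_ne_zero_of_mul hb
        have h6 := right_ne_zero_of_mul hb
        have h7 : v₁ = y₁ := by
          by_contra hne
          rw [if_neg hne] at h5
          exact h5 rfl
        subst h7
        exact ⟨i1, (Dp hP.p₂ D).leLR_trans (Relation.ReflTransGen.single (Or.inl ⟨a, h6⟩)) i2⟩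
    · rcases hP.cov b with ⟨a, rfl⟩ | ⟨a, rfl⟩
      · have h4 : sm M (j₁ a) = f₁ (sm M₁ a) * f₂ 1 := by rw [hP.p₁.sm, map_one, mul_one]
        rw [h4] at hb
        change D.h _ _ _ ≠ 0 at hb
        rw [dpH hP D] at hb
        have h5 := left_ne_zero_of_mul hb
        have h6 := right_ne_zero_of_mul hb
        have h7 : v₂ = y₂ := by
          by_contra hne
          rw [KLD.h, KLD.C_one, mul_one, Module.Basis.repr_self, Finsupp.single_apply,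
            if_neg hne] at h6
          exact h6 rfl
        subst h7
        exact ⟨(Dp hP.p₁ D).leLR_trans (Relation.ReflTransGen.single (Or.inr ⟨a, h5⟩)) i1, i2⟩
      · have h4 : sm M (j₂ a) = f₁ 1 * f₂ (sm M₂ a) := by rw [hP.p₂.sm, map_one, one_mul]
        rw [h4] at hb
        change D.h _ _ _ ≠ 0 at hb
        rw [dpH hP D] at hb
        have h5 := left_ne_zero_of_mul hb
        have h6 := right_ne_zero_of_mul hb
        have h7 : v₁ = y₁ := by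
          by_contra hne
          rw [KLD.h, KLD.C_one, mul_one, Module.Basis.repr_self, Finsupp.single_apply,
            if_neg hne] at h5
          exact h5 rfl
        subst h7
        exact ⟨i1, (Dp hP.p₂ D).leLR_trans (Relation.ReflTransGen.single (Or.inr ⟨a, h6⟩)) i2⟩

include h₁ h₂ in
theorem dpP4 {y w : M.Group} (h : D.leLR y w) : D.a w ≤ D.a y := by
  obtain ⟨y₁, y₂, rfl⟩ := hP.surj y
  obtain ⟨w₁, w₂, rfl⟩ := hP.surj w
  obtain ⟨i1, i2⟩ := dpLeLR hP D h y₁ w₁ y₂ w₂ rfl rfl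
  rw [dpA hP D h₁ h₂, dpA hP D h₁ h₂]
  exact add_le_add (h₁.P4' i1) (h₂.P4' i2)

include hP in
theorem dpPar (I : Set B) {w : M.Group} (hw : w ∈ par M I) :
    ∃ x ∈ par M₁ (j₁ ⁻¹' I), ∃ y ∈ par M₂ (j₂ ⁻¹' I), w = f₁ x * f₂ y := by
  refine Subgroup.closure_induction (p := fun w _ => ∃ x ∈ par M₁ (j₁ ⁻¹' I),
    ∃ y ∈ par M₂ (j₂ ⁻¹' I), w = f₁ x * f₂ y) ?_ ?_ ?_ ?_ hw
  · rintro _ ⟨b, hb, rfl⟩
    rcases hP.cov b with ⟨a, rfl⟩ | ⟨a, rfl⟩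
    · exact ⟨sm M₁ a, Subgroup.subset_closure ⟨a, hb, rfl⟩, 1, Subgroup.one_mem _, by
        rw [hP.p₁.sm, map_one, mul_one]⟩
    · exact ⟨1, Subgroup.one_mem _, sm M₂ a, Subgroup.subset_closure ⟨a, hb, rfl⟩, by
        rw [hP.p₂.sm, map_one, one_mul]⟩
  · exact ⟨1, Subgroup.one_mem _, 1, Subgroup.one_mem _, dpOne.symm⟩
  · rintro _ _ _ _ ⟨x, hx, y, hy, rfl⟩ ⟨x', hx', y', hy', rfl⟩
    exact ⟨x * x', Subgroup.mul_mem _ hx hx', y * y', Subgroup.mul_mem _ hy hy', dpMul hP _ _ _ _⟩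
  · rintro _ _ ⟨x, hx, y, hy, rfl⟩
    exact ⟨x⁻¹, Subgroup.inv_mem _ hx, y⁻¹, Subgroup.inv_mem _ hy, dpInv hP _ _⟩

include hP in
theorem dpPar' (I : Set B) {x : M₁.Group} (hx : x ∈ par M₁ (j₁ ⁻¹' I)) {y : M₂.Group}
    (hy : y ∈ par M₂ (j₂ ⁻¹' I)) : f₁ x * f₂ y ∈ par M I := by
  refine Subgroup.mul_mem _ ?_ ?_
  · have h1 : f₁ x ∈ (par M₁ (j₁ ⁻¹' I)).map f₁ := ⟨x, hx, rfl⟩
    rw [par_image hP.p₁] at h1
    exact Subgroup.closure_mono (Set.image_mono (Set.image_preimage_subset _ _)) h1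
  · have h1 : f₂ y ∈ (par M₂ (j₂ ⁻¹' I)).map f₂ := ⟨y, hy, rfl⟩
    rw [par_image hP.p₂] at h1
    exact Subgroup.closure_mono (Set.image_mono (Set.image_preimage_subset _ _)) h1

theorem dpAtt {B' : Type} {M' : CoxeterMatrix B'} {L' : M'.Group → ℤ} {H' : Type} [Ring H']
    [Algebra LP H'] {D' : KLD M' L' H'} (hc : D'.Core) (I : Set B') {w : M'.Group}
    (hw : w ∈ par M' I) :
    ∃ x ∈ par M' I, ∃ y ∈ par M' I, (D'.h x y w).coeff (D'.a w) ≠ 0 := by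
  have h1 := hc.P12' I w hw
  have h2 : {n : ℕ | ∃ x ∈ par M' I, ∃ y ∈ par M' I, (D'.h x y w).coeff n ≠ 0}.Nonempty := by
    refine ⟨0, 1, Subgroup.one_mem _, w, hw, ?_⟩
    rw [KLD.h_one, if_pos rfl]
    simp
  have h3 : BddAbove {n : ℕ | ∃ x ∈ par M' I, ∃ y ∈ par M' I, (D'.h x y w).coeff n ≠ 0} :=
    (KLD.a_bdd hc.bdd w).mono (by
      rintro n ⟨x, _, y, _, h⟩
      exact ⟨x, y, h⟩)
  have h4 := Nat.sSup_mem h2 h3
  rw [← h1]
  exact h4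

include h₁ h₂ in
theorem dpP12 (I : Set B) (w : M.Group) (hw : w ∈ par M I) : D.aPar I w = D.a w := by
  obtain ⟨w₁, hw₁, w₂, hw₂, rfl⟩ := dpPar hP I hw
  obtain ⟨x₁, hx₁, y₁, hy₁, e₁⟩ := dpAtt h₁ _ hw₁
  obtain ⟨x₂, hx₂, y₂, hy₂, e₂⟩ := dpAtt h₂ _ hw₂
  have hg : IsGreatest {n : ℕ | ∃ x ∈ par M I, ∃ y ∈ par M I,
      (D.h x y (f₁ w₁ * f₂ w₂)).coeff n ≠ 0} (D.a (f₁ w₁ * f₂ w₂)) := by
    constructor
    · refine ⟨f₁ x₁ * f₂ x₂, dpPar' hP I hx₁ hx₂, f₁ y₁ * f₂ y₂, dpPar' hP I hy₁ hy₂, ?_⟩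
      rw [dpH hP D, dpA hP D h₁ h₂, Nat.cast_add,
        cf_mul_lead (KLD.h_dle h₁.bdd _ _ _) (KLD.h_dle h₂.bdd _ _ _)]
      exact mul_ne_zero e₁ e₂
    · rintro n ⟨x, _, y, _, h⟩
      obtain ⟨x₁, x₂, rfl⟩ := hP.surj x
      obtain ⟨y₁, y₂, rfl⟩ := hP.surj y
      by_contra hlt
      apply h
      rw [dpH hP D]
      rw [dpA hP D h₁ h₂] at hlt
      exact (KLD.h_dle h₁.bdd _ _ _).mul (KLD.h_dle h₂.bdd _ _ _) _ (by omega)
  rw [KLD.aPar]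
  exact hg.csSup_eq

include hP in
theorem dpSum {R : Type} [CommRing R] (s : pA hP.p₁ D) (t : pA hP.p₂ D)
    (F : M.Group → LP → R) (F₁ : M₁.Group → LP → R) (F₂ : M₂.Group → LP → R)
    (hF : ∀ z₁ z₂ c₁ c₂, F (f₁ z₁ * f₂ z₂) (c₁ * c₂) = F₁ z₁ c₁ * F₂ z₂ c₂)
    (hF0 : ∀ z, F z 0 = 0) :
    (D.C.repr ((s : H) * (t : H))).sum F =
      ((Dp hP.p₁ D).C.repr s).sum F₁ * ((Dp hP.p₂ D).C.repr t).sum F₂ := by
  classical
  have h1 : (D.C.repr ((s : H) * (t : H))).support ⊆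
      (((Dp hP.p₁ D).C.repr s).support ×ˢ ((Dp hP.p₂ D).C.repr t).support).image
        fun p => f₁ p.1 * f₂ p.2 := by
    intro z hz
    obtain ⟨z₁, z₂, rfl⟩ := hP.surj z
    rw [Finsupp.mem_support_iff, dpRepr_C hP D] at hz
    refine Finset.mem_image.2 ⟨(z₁, z₂), ?_, rfl⟩
    rw [Finset.mem_product, Finsupp.mem_support_iff, Finsupp.mem_support_iff]
    exact ⟨left_ne_zero_of_mul hz, right_ne_zero_of_mul hz⟩
  rw [Finsupp.sum, Finset.sum_subset h1 (fun z _ hz => by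
    rw [Finsupp.notMem_support_iff.1 hz, hF0]), Finset.sum_image (fun p _ q _ h => by
      obtain ⟨i1, i2⟩ := dpInj hP h
      exact Prod.ext i1 i2), Finset.sum_product, Finsupp.sum, Finsupp.sum, Finset.sum_mul_sum]
  refine Finset.sum_congr rfl fun z₁ _ => Finset.sum_congr rfl fun z₂ _ => ?_
  rw [dpRepr_C hP D, hF]

theorem dpZeroL {B' : Type} {M' : CoxeterMatrix B'} {L' : M'.Group → ℤ} {H' : Type} [Ring H']
    [Algebra LP H'] {D' : KLD M' L' H'} (hc : D'.Core) (hL' : IsWeight M' L')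
    (w w' x y : M'.Group) (h : D'.a y < D'.a x) :
    ((D'.C.repr (D'.C w * D'.C x)).sum fun z c => c ⊗ₜ[ℤ] D'.h z w' y) = 0 := by
  refine Finset.sum_eq_zero fun z hz => ?_
  have h1 : D'.h z w' y = 0 := by
    by_contra hne
    have h2 := hc.a_leR (D'.leR_of_h hL' hne)
    have h3 := hc.a_leL (D'.leL_of_repr hL' (Finsupp.mem_support_iff.1 hz))
    omega
  simp only [h1, TensorProduct.tmul_zero]

theorem dpZeroR {B' : Type} {M' : CoxeterMatrix B'} {L' : M'.Group → ℤ} {H' : Type} [Ring H']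
    [Algebra LP H'] {D' : KLD M' L' H'} (hc : D'.Core) (hL' : IsWeight M' L')
    (w w' x y : M'.Group) (h : D'.a y < D'.a x) :
    ((D'.C.repr (D'.C x * D'.C w')).sum fun z c => D'.h w z y ⊗ₜ[ℤ] c) = 0 := by
  refine Finset.sum_eq_zero fun z hz => ?_
  have h1 : D'.h w z y = 0 := by
    by_contra hne
    have h2 := hc.a_leL (D'.leL_of_h hL' hne)
    have h3 := hc.a_leR (D'.leR_of_repr hL' (Finsupp.mem_support_iff.1 hz))
    omega
  simp only [h1, TensorProduct.zero_tmul]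

include h₁ h₂ in
theorem dpP15 (hL : IsWeight M L) (w w' x y : M.Group) (hxy : D.a x = D.a y) :
    ((D.C.repr (D.C w * D.C x)).sum fun z c => c ⊗ₜ[ℤ] D.h z w' y) =
      ((D.C.repr (D.C x * D.C w')).sum fun z c => D.h w z y ⊗ₜ[ℤ] c) := by
  obtain ⟨w₁, w₂, rfl⟩ := hP.surj w
  obtain ⟨v₁, v₂, rfl⟩ := hP.surj w'
  obtain ⟨x₁, x₂, rfl⟩ := hP.surj x
  obtain ⟨y₁, y₂, rfl⟩ := hP.surj y
  have e1 := dpSum (R := LP ⊗[ℤ] LP) hP D ((Dp hP.p₁ D).C w₁ * (Dp hP.p₁ D).C x₁)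
    ((Dp hP.p₂ D).C w₂ * (Dp hP.p₂ D).C x₂)
    (fun z c => c ⊗ₜ[ℤ] D.h z (f₁ v₁ * f₂ v₂) (f₁ y₁ * f₂ y₂))
    (fun z c => c ⊗ₜ[ℤ] (Dp hP.p₁ D).h z v₁ y₁) (fun z c => c ⊗ₜ[ℤ] (Dp hP.p₂ D).h z v₂ y₂)
    (fun z₁ z₂ c₁ c₂ => by
      rw [dpH hP D, Algebra.TensorProduct.tmul_mul_tmul]) (fun z => TensorProduct.zero_tmul _ _)
  have e2 := dpSum (R := LP ⊗[ℤ] LP) hP D ((Dp hP.p₁ D).C x₁ * (Dp hP.p₁ D).C v₁)
    ((Dp hP.p₂ D).C x₂ * (Dp hP.p₂ D).C v₂)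
    (fun z c => D.h (f₁ w₁ * f₂ w₂) z (f₁ y₁ * f₂ y₂) ⊗ₜ[ℤ] c)
    (fun z c => (Dp hP.p₁ D).h w₁ z y₁ ⊗ₜ[ℤ] c) (fun z c => (Dp hP.p₂ D).h w₂ z y₂ ⊗ₜ[ℤ] c)
    (fun z₁ z₂ c₁ c₂ => by
      rw [dpH hP D, Algebra.TensorProduct.tmul_mul_tmul]) (fun z => TensorProduct.tmul_zero _ _)
  rw [dpCC hP D, dpCC hP D, e1, e2]
  rw [dpA hP D h₁ h₂, dpA hP D h₁ h₂] at hxy
  have hL₁ := isWeight_par hP.p₁ hL
  have hL₂ := isWeight_par hP.p₂ hL
  rcases lt_trichotomy ((Dp hP.p₁ D).a x₁) ((Dp hP.p₁ D).a y₁) with h | h | h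
  · rw [dpZeroL h₂ hL₂ w₂ v₂ x₂ y₂ (by omega), dpZeroR h₂ hL₂ w₂ v₂ x₂ y₂ (by omega), mul_zero,
      mul_zero]
  · rw [h₁.P15' hL₁ w₁ v₁ x₁ y₁ h, h₂.P15' hL₂ w₂ v₂ x₂ y₂ (by omega)]
  · rw [dpZeroL h₁ hL₁ w₁ v₁ x₁ y₁ h, dpZeroR h₁ hL₁ w₁ v₁ x₁ y₁ h, zero_mul, zero_mul]

include h₁ h₂ in
theorem dpLL (hL : IsWeight M L) (k : ℕ) (m : ℤ) (w x y : M.Group)
    (hx : D.a x = k) : D.Lk k m w (D.bul k (Finsupp.single x 1) (Finsupp.single y 1)) =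
      D.bul k (D.Lk k m w (Finsupp.single x 1)) (Finsupp.single y 1) := by
  classical
  ext z
  rw [KLD.Lk_sum, KLD.bul_sum, KLD.bul_single, KLD.Lk_single]
  by_cases hz : D.a z = k
  · have h1 := dpP15 hP D h₁ h₂ hL w y x z (by rw [hx, hz])
    have h2 := congrArg (fun t => TensorProduct.lid ℤ ℤ
      (TensorProduct.map (cfH m) (cfH k) t)) h1
    simp only [Finsupp.sum, map_sum, TensorProduct.map_tmul, TensorProduct.lid_tmul,
      cfH_apply, smul_eq_mul] at h2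
    have h3 : (D.tk k k (D.C x * D.C y)).support ⊆ (D.C.repr (D.C x * D.C y)).support :=
      Finsupp.support_onFinset_subset
    have h4 : (D.tk k m (D.C w * D.C x)).support ⊆ (D.C.repr (D.C w * D.C x)).support :=
      Finsupp.support_onFinset_subset
    rw [Finset.sum_subset h3 (fun c _ hc => by
        rw [Finsupp.notMem_support_iff.1 hc, zero_mul]),
      Finset.sum_subset h4 (fun c _ hc => by
        rw [Finsupp.notMem_support_iff.1 hc, zero_mul])]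
    have h5 : ∀ c ∈ (D.C.repr (D.C x * D.C y)).support,
        D.tk k k (D.C x * D.C y) c * D.tk k m (D.C w * D.C c) z =
          (D.h w c z).coeff m * (D.C.repr (D.C x * D.C y) c).coeff k := by
      intro c hc
      rw [KLD.tk_apply, KLD.tk_apply, if_pos hz, mul_comm]
      split_ifs with h6
      · rfl
      · have h7 : D.h w c z = 0 := by
          by_contra hne
          have h8 := dpP4 hP D h₁ h₂ (D.leL_leLR (D.leL_of_h hL hne))
          have h9 := dpP4 hP D h₁ h₂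
            (D.leR_leLR (D.leR_of_repr hL (Finsupp.mem_support_iff.1 hc)))
          omega
        rw [h7, cf_zero, zero_mul, mul_zero]
    have h6 : ∀ c ∈ (D.C.repr (D.C w * D.C x)).support,
        D.tk k m (D.C w * D.C x) c * D.tk k k (D.C c * D.C y) z =
          (D.C.repr (D.C w * D.C x) c).coeff m * (D.h c y z).coeff k := by
      intro c hc
      rw [KLD.tk_apply, KLD.tk_apply, if_pos hz]
      split_ifs with h6
      · rfl
      · have h7 : D.h c y z = 0 := by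
          by_contra hne
          have h8 := dpP4 hP D h₁ h₂ (D.leR_leLR (D.leR_of_h hL hne))
          have h9 := dpP4 hP D h₁ h₂
            (D.leL_leLR (D.leL_of_repr hL (Finsupp.mem_support_iff.1 hc)))
          omega
        rw [h7, cf_zero, zero_mul, mul_zero]
    rw [Finset.sum_congr rfl h5, Finset.sum_congr rfl h6]
    exact h2.symm
  · rw [Finset.sum_eq_zero fun c _ => by
        rw [D.tk_apply k m (D.C w * D.C c) z, if_neg hz, mul_zero],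
      Finset.sum_eq_zero fun c _ => by
        rw [D.tk_apply k k (D.C c * D.C y) z, if_neg hz, mul_zero]]

end core

end prod

/-- Proof. Write `D₁ = Dp hP.p₁ D`, `D₂ = Dp hP.p₂ D` (see Sub.lean: `coe_Cp`, `coe_Tp`,
`expand_Cp` in Pr.lean). `T (f₁ x * f₂ y) = T (f₁ x) * T (f₂ y)` (`T_mul` and `hP.len`), so
`T (f₁ x)` and `T (f₂ y)` commute (`hP.comm`, length also of `f₂ y * f₁ x`), hence all elements of
the two subalgebras commute.
`C (f₁ x * f₂ y) = C (f₁ x) * C (f₂ y)`: both sides are bar-invariant, the difference is in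
`Lat D.T (-1)` (expand `C (f₁ x) = T (f₁ x) + ...`), use `bar_unique'`. Hence
`h (x₁ x₂) (y₁ y₂) (z₁ z₂) = D₁.h x₁ y₁ z₁ * D₂.h x₂ y₂ z₂` (here `x₁ x₂` means `f₁ x₁ * f₂ x₂`) and
`p 1 (z₁ z₂) = D₁.p 1 z₁ * D₂.p 1 z₂`.
`a (z₁ z₂) = D₁.a z₁ + D₂.a z₂`: upper bound `h_dle` and `Dle.mul`, attained by `cf_mul_lead`
(use `KLD.a_eq`, `KLD.a_attained`). Similarly for `aPar I` with `I₁ = j₁ ⁻¹' I`, `I₂ = j₂ ⁻¹' I`
(an element `f₁ x * f₂ y` is in `par M I` iff `x ∈ par M₁ I₁` and `y ∈ par M₂ I₂`; for one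
direction use the closure induction, for the other the images); as `D₁.aPar I₁ = D₁.a` and
`D₂.aPar I₂ = D₂.a` on the parabolic subgroups, one gets P12 (the supremum of sums; attained values
exist since the components are bounded).
`g (x₁ x₂) (y₁ y₂) (z₁ z₂) = D₁.g x₁ y₁ z₁ * D₂.g x₂ y₂ z₂` (`cf_mul_lead`), the same for `nn`.
The core properties are then immediate from those of the components; for P4' show that an
elementary step of `leLR` in the product is a step in one component and equality in the other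
(`hP.cov`), so `leLR (y₁ y₂) (w₁ w₂)` gives `leLR` in both components.
For LL: evaluate at `z = z₁ z₂`; both sides are sums over `c = c₁ c₂` (`KLD.Lk_sum`,
`KLD.bul_sum`). It may be easier to prove first P15 in the form: if `a x = a z` then for all `n m`
the sums over all `c` of `(h x y c).coeff n * (h w c z).coeff m` and of
`(h w x c).coeff m * (h c y z).coeff n` coincide (for the components this follows from
`(h₁.lus _).P15`, as in `Lus.LL` in Cg.lean; note that in the product `a x = a z` and both sides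
nonzero force `a x₁ = a z₁` and `a x₂ = a z₂` by P4), and to deduce LL. You may also prove
`D.Lus` instead and use `Lus.core`. -/
theorem core_prod {B₁ B₂ B : Type} {M₁ : CoxeterMatrix B₁} {M₂ : CoxeterMatrix B₂}
    {M : CoxeterMatrix B} {f₁ : M₁.Group →* M.Group} {j₁ : B₁ → B} {f₂ : M₂.Group →* M.Group}
    {j₂ : B₂ → B} (hP : IsProd f₁ j₁ f₂ j₂) {L : M.Group → ℤ} (hL : IsWeight M L)
    {H : Type} [Ring H] [Algebra LP H] (D : KLD M L H) (h₁ : (Dp hP.p₁ D).Core)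
    (h₂ : (Dp hP.p₂ D).Core) : D.Core := by
  refine ⟨?_, ?_, ?_, ?_, ?_, ?_, ?_, ?_, ?_⟩
  · obtain ⟨N₁, hN₁⟩ := h₁.bdd
    obtain ⟨N₂, hN₂⟩ := h₂.bdd
    refine ⟨N₁ + N₂, fun x y z => ?_⟩
    obtain ⟨x₁, x₂, rfl⟩ := hP.surj x
    obtain ⟨y₁, y₂, rfl⟩ := hP.surj y
    obtain ⟨z₁, z₂, rfl⟩ := hP.surj z
    rw [dpH hP D]
    exact (hN₁ _ _ _).mul_of_eq (hN₂ _ _ _) (by push_cast; rfl)
  · intro z
    obtain ⟨z₁, z₂, rfl⟩ := hP.surj z
    rw [dpP1 hP D, dpA hP D h₁ h₂]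
    exact (h₁.P1' z₁).mul_of_eq (h₂.P1' z₂) (by push_cast; omega)
  · intro x y z hz h
    obtain ⟨x₁, x₂, rfl⟩ := hP.surj x
    obtain ⟨y₁, y₂, rfl⟩ := hP.surj y
    obtain ⟨z₁, z₂, rfl⟩ := hP.surj z
    rw [dpNn hP D h₁ h₂] at hz
    rw [dpG hP D h₁ h₂] at h
    rw [dpInv hP, h₁.P2' (left_ne_zero_of_mul hz) (left_ne_zero_of_mul h),
      h₂.P2' (right_ne_zero_of_mul hz) (right_ne_zero_of_mul h)]
  · intro y
    obtain ⟨y₁, y₂, rfl⟩ := hP.surj y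
    obtain ⟨z₁, a1, a2, a3, a4⟩ := h₁.P3' y₁
    obtain ⟨z₂, b1, b2, b3, b4⟩ := h₂.P3' y₂
    refine ⟨f₁ z₁ * f₂ z₂, ?_, ?_, ?_, ?_⟩
    · rw [dpNn hP D h₁ h₂]
      exact mul_ne_zero a1 b1
    · rw [dpInv hP, dpG hP D h₁ h₂, dpNn hP D h₁ h₂, a2, b2]
    · rw [dpNn hP D h₁ h₂]
      rcases a3 with a3 | a3 <;> rcases b3 with b3 | b3 <;> rw [a3, b3] <;> norm_num
    · intro z' hz' hg
      obtain ⟨u₁, u₂, rfl⟩ := hP.surj z'
      rw [dpNn hP D h₁ h₂] at hz'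
      rw [dpInv hP, dpG hP D h₁ h₂] at hg
      rw [a4 u₁ (left_ne_zero_of_mul hz') (left_ne_zero_of_mul hg),
        b4 u₂ (right_ne_zero_of_mul hz') (right_ne_zero_of_mul hg)]
  · intro y w h
    exact dpP4 hP D h₁ h₂ h
  · intro z hz
    obtain ⟨z₁, z₂, rfl⟩ := hP.surj z
    rw [dpNn hP D h₁ h₂] at hz
    rw [dpInv hP, h₁.P6' (left_ne_zero_of_mul hz), h₂.P6' (right_ne_zero_of_mul hz)]
  · intro x y z h
    obtain ⟨x₁, x₂, rfl⟩ := hP.surj x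
    obtain ⟨y₁, y₂, rfl⟩ := hP.surj y
    obtain ⟨z₁, z₂, rfl⟩ := hP.surj z
    rw [dpG hP D h₁ h₂] at h
    obtain ⟨a1, a2⟩ := h₁.Q' (left_ne_zero_of_mul h)
    obtain ⟨b1, b2⟩ := h₂.Q' (right_ne_zero_of_mul h)
    rw [dpA hP D h₁ h₂, dpA hP D h₁ h₂, dpA hP D h₁ h₂, a1, a2, b1, b2]
    exact ⟨rfl, rfl⟩
  · exact dpP12 hP D h₁ h₂
  · intro k m w x y hx
    exact dpLL hP D h₁ h₂ hL k m w x y hx

end Pool.Agent.Helper35.KL
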