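import Pool.Agent.Helper35.KL.Pr

/-!
# Direct products of Coxeter groups: definitions
-/

namespace Pool.Agent.Helper35.KL

/-- The restriction of a Coxeter matrix to a set of generators. -/
def subM {B₁ B : Type} (M : CoxeterMatrix B) (j : B₁ → B) (hj : Function.Injective j) :
    CoxeterMatrix B₁ where
  M := Matrix.of fun a b => M (j a) (j b)
  isSymm := Matrix.IsSymm.ext fun a b => M.symmetric (j b) (j a)
  diagonal a := M.diagonal (j a)
  off_diagonal a b h := M.off_diagonal (j a) (j b) fun h' => h (hj h')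

theorem subM_apply {B₁ B : Type} (M : CoxeterMatrix B) (j : B₁ → B)
    (hj : Function.Injective j) (a b : B₁) : subM M j hj a b = M (j a) (j b) := rfl

/-- `M.Group` is the direct product of the parabolic subgroups given by `f₁` and `f₂`. -/
structure IsProd {B₁ B₂ B : Type} {M₁ : CoxeterMatrix B₁} {M₂ : CoxeterMatrix B₂}
    {M : CoxeterMatrix B} (f₁ : M₁.Group →* M.Group) (j₁ : B₁ → B) (f₂ : M₂.Group →* M.Group)
    (j₂ : B₂ → B) : Prop where
  p₁ : IsPar f₁ j₁
  p₂ : IsPar f₂ j₂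
  cov : ∀ b, (∃ a, b = j₁ a) ∨ ∃ a, b = j₂ a
  inj₁ : Function.Injective j₁
  inj₂ : Function.Injective j₂
  disj : ∀ a b, j₁ a ≠ j₂ b
  comm : ∀ x y, f₁ x * f₂ y = f₂ y * f₁ x
  surj : ∀ w, ∃ x y, w = f₁ x * f₂ y
  len : ∀ x y, len M (f₁ x * f₂ y) = len M₁ x + len M₂ y

end Pool.Agent.Helper35.KL
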