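import Pool.Agent.Helper35.KL.Dp.Defs

/-!
# Direct products of Coxeter groups: group theory
-/

namespace Pool.Agent.Helper35.KL

/-- The retraction onto one factor. -/
private theorem exists_retr {B₁ B₂ B : Type} (M : CoxeterMatrix B) (j₁ : B₁ → B) (j₂ : B₂ → B)
    (h₁ : Function.Injective j₁)
    (hcov : ∀ b, (∃ a, b = j₁ a) ∨ ∃ a, b = j₂ a) (hdis : ∀ a b, j₁ a ≠ j₂ b)
    (h : ∀ a b, M (j₁ a) (j₂ b) = 2) :
    ∃ r : M.Group →* (subM M j₁ h₁).Group,
      (∀ a, r (sm M (j₁ a)) = sm (subM M j₁ h₁) a) ∧ ∀ b, r (sm M (j₂ b)) = 1 := by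
  classical
  set g : B → (subM M j₁ h₁).Group := fun b =>
    if hb : ∃ a, b = j₁ a then sm (subM M j₁ h₁) hb.choose else 1 with hg
  have g1 : ∀ a, g (j₁ a) = sm (subM M j₁ h₁) a := by
    intro a
    have hb : ∃ a', j₁ a = j₁ a' := ⟨a, rfl⟩
    rw [hg]
    simp only
    rw [dif_pos hb]
    have e : hb.choose = a := (h₁ hb.choose_spec).symm
    rw [e]
  have g2 : ∀ b, g (j₂ b) = 1 := by
    intro b
    have hb : ¬ ∃ a, j₂ b = j₁ a := by
      rintro ⟨a, ha⟩
      exact hdis a b ha.symm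
    rw [hg]
    simp only
    rw [dif_neg hb]
  have hl : ∀ b b', (g b * g b') ^ (M b b') = 1 := by
    intro b b'
    rcases hcov b with ⟨a, rfl⟩ | ⟨a, rfl⟩
    · rcases hcov b' with ⟨a', rfl⟩ | ⟨a', rfl⟩
      · rw [g1, g1]
        exact (subM M j₁ h₁).toCoxeterSystem.simple_mul_simple_pow a a'
      · rw [g1, g2, h, mul_one, pow_two, sm_sm]
    · rcases hcov b' with ⟨a', rfl⟩ | ⟨a', rfl⟩
      · rw [g1, g2, M.symmetric, h, one_mul, pow_two, sm_sm]
      · rw [g2, g2, one_mul, one_pow]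
  refine ⟨M.toCoxeterSystem.lift ⟨g, hl⟩, fun a => ?_, fun b => ?_⟩
  · rw [← g1]
    exact M.toCoxeterSystem.lift_apply_simple _ _
  · rw [← g2 b]
    exact M.toCoxeterSystem.lift_apply_simple _ _

/-- Proof. Put `Mᵢ = subM M jᵢ _` and `fᵢ = gmap jᵢ _ : Mᵢ.Group →* M.Group`. There is a
retraction `r₁ : M.Group →* M₁.Group` that sends `sm M (j₁ a)` to `sm M₁ a` and `sm M (j₂ b)` to `1`
(use `M.toCoxeterSystem.lift`; the relations hold because `M (j₁ a) (j₂ b) = 2` and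
`(sm M₁ a * 1) ^ 2 = 1`), similarly `r₂`. `r₁ (f₁ x) = x`, `r₁ (f₂ y) = 1` (by `ext_simple`).
By `len_induction`, `len (r₁ w) + len (r₂ w) ≤ len w`. Together with `len_map_le` this gives
`len (f₁ x) = len x` and `len (f₁ x * f₂ y) = len x + len y`. `comm`: the simple reflections
commute (`simple_mul_simple_pow` with exponent `2` and `sm_sm`), then `len_induction` for `x` and
for `y`. `surj`: `len_induction` for `w`. -/
theorem isProd_split {B₁ B₂ B : Type} (M : CoxeterMatrix B) (j₁ : B₁ → B) (j₂ : B₂ → B)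
    (h₁ : Function.Injective j₁) (h₂ : Function.Injective j₂)
    (hcov : ∀ b, (∃ a, b = j₁ a) ∨ ∃ a, b = j₂ a) (hdis : ∀ a b, j₁ a ≠ j₂ b)
    (h : ∀ a b, M (j₁ a) (j₂ b) = 2) :
    IsProd (gmap (M := subM M j₁ h₁) (M' := M) j₁ fun _ _ => rfl) j₁
      (gmap (M := subM M j₂ h₂) (M' := M) j₂ fun _ _ => rfl) j₂ := by
  set M₁ := subM M j₁ h₁ with hM₁
  set M₂ := subM M j₂ h₂ with hM₂
  set f₁ : M₁.Group →* M.Group := gmap (M := M₁) (M' := M) j₁ fun _ _ => rfl with hf₁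
  set f₂ : M₂.Group →* M.Group := gmap (M := M₂) (M' := M) j₂ fun _ _ => rfl with hf₂
  have s₁ : ∀ a, f₁ (sm M₁ a) = sm M (j₁ a) := fun a => gmap_sm j₁ _ a
  have s₂ : ∀ a, f₂ (sm M₂ a) = sm M (j₂ a) := fun a => gmap_sm j₂ _ a
  obtain ⟨r₁, r₁a, r₁b⟩ := exists_retr M j₁ j₂ h₁ hcov hdis h
  obtain ⟨r₂, r₂a, r₂b⟩ := exists_retr M j₂ j₁ h₂ (fun b => (hcov b).symm)
    (fun a b => (hdis b a).symm) (fun a b => by rw [M.symmetric]; exact h b a)
  replace r₁a : ∀ a, r₁ (sm M (j₁ a)) = sm M₁ a := r₁a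
  replace r₂a : ∀ a, r₂ (sm M (j₂ a)) = sm M₂ a := r₂a
  have r11 : ∀ x, r₁ (f₁ x) = x := by
    have e : r₁.comp f₁ = MonoidHom.id _ := by
      refine M₁.toCoxeterSystem.ext_simple fun b => ?_
      change r₁ (f₁ (sm M₁ b)) = sm M₁ b
      rw [s₁, r₁a]
    exact fun x => DFunLike.congr_fun e x
  have r22 : ∀ x, r₂ (f₂ x) = x := by
    have e : r₂.comp f₂ = MonoidHom.id _ := by
      refine M₂.toCoxeterSystem.ext_simple fun b => ?_
      change r₂ (f₂ (sm M₂ b)) = sm M₂ b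
      rw [s₂, r₂a]
    exact fun x => DFunLike.congr_fun e x
  have r12 : ∀ x, r₁ (f₂ x) = 1 := by
    have e : r₁.comp f₂ = 1 := by
      refine M₂.toCoxeterSystem.ext_simple fun b => ?_
      change r₁ (f₂ (sm M₂ b)) = 1
      rw [s₂, r₁b]
    exact fun x => DFunLike.congr_fun e x
  have r21 : ∀ x, r₂ (f₁ x) = 1 := by
    have e : r₂.comp f₁ = 1 := by
      refine M₁.toCoxeterSystem.ext_simple fun b => ?_
      change r₂ (f₁ (sm M₁ b)) = 1
      rw [s₁, r₂b]
    exact fun x => DFunLike.congr_fun e x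
  have hle : ∀ w, len M₁ (r₁ w) + len M₂ (r₂ w) ≤ len M w := by
    refine len_induction ?_ ?_
    · rw [map_one, map_one, len_one, len_one, len_one]
    · intro b w hb ih
      rw [map_mul, map_mul, hb]
      rcases hcov b with ⟨a, rfl⟩ | ⟨a, rfl⟩
      · rw [r₁a, r₂b, one_mul]
        have := len_sm_mul (M := M₁) a (r₁ w)
        omega
      · rw [r₂a, r₁b, one_mul]
        have := len_sm_mul (M := M₂) a (r₂ w)
        omega
  have le₁ : ∀ x, len M (f₁ x) ≤ len M₁ x := fun x => len_map_le f₁ j₁ s₁ x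
  have le₂ : ∀ x, len M (f₂ x) ≤ len M₂ x := fun x => len_map_le f₂ j₂ s₂ x
  have hlen : ∀ x y, len M (f₁ x * f₂ y) = len M₁ x + len M₂ y := by
    intro x y
    refine le_antisymm ?_ ?_
    · exact (M.toCoxeterSystem.length_mul_le _ _).trans (add_le_add (le₁ x) (le₂ y))
    · have := hle (f₁ x * f₂ y)
      rw [map_mul, map_mul, r11, r22, r12, r21, mul_one, one_mul] at this
      exact this
  have c0 : ∀ a b, Commute (sm M (j₁ a)) (sm M (j₂ b)) := by
    intro a b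
    have e := M.toCoxeterSystem.simple_mul_simple_pow (j₁ a) (j₂ b)
    rw [h, pow_two] at e
    have e' := eq_inv_of_mul_eq_one_left e
    rw [mul_inv_rev, M.toCoxeterSystem.inv_simple, M.toCoxeterSystem.inv_simple] at e'
    exact e'
  have c1 : ∀ a y, Commute (sm M (j₁ a)) (f₂ y) := by
    intro a
    refine len_induction ?_ ?_
    · rw [map_one]
      exact Commute.one_right _
    · intro b y _ ih
      rw [map_mul, s₂]
      exact (c0 a b).mul_right ih
  have c2 : ∀ x y, Commute (f₁ x) (f₂ y) := by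
    intro x y
    revert x
    refine len_induction ?_ ?_
    · rw [map_one]
      exact Commute.one_left _
    · intro b x _ ih
      rw [map_mul, s₁]
      exact (c1 b y).mul_left ih
  refine ⟨⟨s₁, fun x => ?_⟩, ⟨s₂, fun x => ?_⟩, hcov, h₁, h₂, hdis, fun x y => (c2 x y).eq, ?_, hlen⟩
  · have := hlen x 1
    rw [map_one, mul_one, len_one, add_zero] at this
    exact this
  · have := hlen 1 x
    rw [map_one, one_mul, len_one, zero_add] at this
    exact this
  · refine len_induction ⟨1, 1, by rw [map_one, map_one, one_mul]⟩ ?_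
    rintro b w _ ⟨x, y, rfl⟩
    rcases hcov b with ⟨a, rfl⟩ | ⟨a, rfl⟩
    · exact ⟨sm M₁ a * x, y, by rw [map_mul, s₁, mul_assoc]⟩
    · refine ⟨x, sm M₂ a * y, ?_⟩
      rw [map_mul, s₂, ← mul_assoc, ← mul_assoc]
      congr 1
      have := (c2 x (sm M₂ a)).eq
      rw [s₂] at this
      exact this.symm

end Pool.Agent.Helper35.KL
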